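import Pool.Agent.helper33.QX.SpecA

set_option autoImplicit false

/-!
# Row qa:FEP (MP_07c750_an)
-/

open scoped ContDiff Topology
open MeasureTheory Filter Set

namespace Pool.Agent.QX

theorem FEP_cs (x y x' y' : ℝ) :
    x * y + x' * y' ≤ Real.sqrt (x ^ 2 + x' ^ 2) * Real.sqrt (y ^ 2 + y' ^ 2) := by
  rw [← Real.sqrt_mul (by positivity)]
  apply Real.le_sqrt_of_sq_le
  nlinarith [sq_nonneg (x * y' - x' * y)]

theorem FEP_int {f : ℝ → ℝ} (h : Continuous f) (h' : HasCompactSupport f) :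
    Integrable (fun t => f t ^ 2) := by
  apply (h.pow 2).integrable_of_hasCompactSupport
  exact h'.comp_left (g := fun x : ℝ => x ^ 2) (by simp)

/-- from the coefficients to the norms -/
theorem FEP_core (hSWP : SWP_stmt) (L K : ℝ) (F P Q : ℝ × ℝ → ℝ) (hL : 0 < L) (hK : 0 ≤ K)
    (hF : Continuous F ∧ HasCompactSupport F ∧ (∀ x t, F (x, t) ≠ 0 → |x| < L))
    (hP : Continuous P ∧ HasCompactSupport P ∧ (∀ x t, P (x, t) ≠ 0 → |x| < L))
    (hQ : Continuous Q ∧ HasCompactSupport Q ∧ (∀ x t, Q (x, t) ≠ 0 → |x| < L))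
    (h : ∀ n : ℤ, ∫ t, (fcC L F n t ^ 2 + fcS L F n t ^ 2) ≤
      K * (Real.sqrt (∫ t, fcC L P n t ^ 2) * Real.sqrt (∫ t, fcC L Q n t ^ 2) +
        Real.sqrt (∫ t, fcS L P n t ^ 2) * Real.sqrt (∫ t, fcS L Q n t ^ 2))) :
    ∫ p, F p ^ 2 ≤ K * (Real.sqrt (∫ p, P p ^ 2) * Real.sqrt (∫ p, Q p ^ 2)) := by
  obtain ⟨_, sF⟩ := hSWP L F hL hF.1 hF.2.1 hF.2.2
  obtain ⟨cP, sP⟩ := hSWP L P hL hP.1 hP.2.1 hP.2.2
  obtain ⟨cQ, sQ⟩ := hSWP L Q hL hQ.1 hQ.2.1 hQ.2.2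
  have nonneg : ∀ (G : ℝ × ℝ → ℝ) (n : ℤ), 0 ≤ ∫ t, (fcC L G n t ^ 2 + fcS L G n t ^ 2) := by
    intro G n
    exact integral_nonneg fun t => by positivity
  have key : ∀ n : ℤ, ∫ t, (fcC L F n t ^ 2 + fcS L F n t ^ 2) ≤
      K * (Real.sqrt (∫ t, (fcC L P n t ^ 2 + fcS L P n t ^ 2)) *
        Real.sqrt (∫ t, (fcC L Q n t ^ 2 + fcS L Q n t ^ 2))) := by
    intro n
    refine le_trans (h n) (mul_le_mul_of_nonneg_left ?_ hK)
    rw [integral_add (FEP_int (cP n).1 (cP n).2.1) (FEP_int (cP n).2.2.1 (cP n).2.2.2),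
      integral_add (FEP_int (cQ n).1 (cQ n).2.1) (FEP_int (cQ n).2.2.1 (cQ n).2.2.2)]
    have h1 : 0 ≤ ∫ t, fcC L P n t ^ 2 := integral_nonneg fun t => by positivity
    have h2 : 0 ≤ ∫ t, fcS L P n t ^ 2 := integral_nonneg fun t => by positivity
    have h3 : 0 ≤ ∫ t, fcC L Q n t ^ 2 := integral_nonneg fun t => by positivity
    have h4 : 0 ≤ ∫ t, fcS L Q n t ^ 2 := integral_nonneg fun t => by positivity
    have := FEP_cs (Real.sqrt (∫ t, fcC L P n t ^ 2)) (Real.sqrt (∫ t, fcC L Q n t ^ 2))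
      (Real.sqrt (∫ t, fcS L P n t ^ 2)) (Real.sqrt (∫ t, fcS L Q n t ^ 2))
    rw [Real.sq_sqrt h1, Real.sq_sqrt h2, Real.sq_sqrt h3, Real.sq_sqrt h4] at this
    exact this
  have hP0 : 0 ≤ ∫ p, P p ^ 2 := integral_nonneg fun p => by positivity
  have hQ0 : 0 ≤ ∫ p, Q p ^ 2 := integral_nonneg fun p => by positivity
  have hL' : 0 < (2 * L)⁻¹ := by positivity
  have htot : (2 * L)⁻¹ * ∫ p, F p ^ 2 ≤
      K * (Real.sqrt ((2 * L)⁻¹ * ∫ p, P p ^ 2) * Real.sqrt ((2 * L)⁻¹ * ∫ p, Q p ^ 2)) := by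
    apply le_of_tendsto sF
    refine Filter.Eventually.of_forall fun s => ?_
    calc ∑ n ∈ s, ∫ t, (fcC L F n t ^ 2 + fcS L F n t ^ 2)
        ≤ ∑ n ∈ s, K * (Real.sqrt (∫ t, (fcC L P n t ^ 2 + fcS L P n t ^ 2)) *
          Real.sqrt (∫ t, (fcC L Q n t ^ 2 + fcS L Q n t ^ 2))) :=
          Finset.sum_le_sum fun n _ => key n
      _ = K * ∑ n ∈ s, Real.sqrt (∫ t, (fcC L P n t ^ 2 + fcS L P n t ^ 2)) *
          Real.sqrt (∫ t, (fcC L Q n t ^ 2 + fcS L Q n t ^ 2)) := by rw [Finset.mul_sum]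
      _ ≤ K * (Real.sqrt (∑ n ∈ s, ∫ t, (fcC L P n t ^ 2 + fcS L P n t ^ 2)) *
          Real.sqrt (∑ n ∈ s, ∫ t, (fcC L Q n t ^ 2 + fcS L Q n t ^ 2))) := by
          apply mul_le_mul_of_nonneg_left _ hK
          exact Real.sum_sqrt_mul_sqrt_le s (fun n => nonneg P n) (fun n => nonneg Q n)
      _ ≤ K * (Real.sqrt ((2 * L)⁻¹ * ∫ p, P p ^ 2) * Real.sqrt ((2 * L)⁻¹ * ∫ p, Q p ^ 2)) := by
          apply mul_le_mul_of_nonneg_left _ hK
          apply mul_le_mul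
          · exact Real.sqrt_le_sqrt (sum_le_hasSum s (fun n _ => nonneg P n) sP)
          · exact Real.sqrt_le_sqrt (sum_le_hasSum s (fun n _ => nonneg Q n) sQ)
          · exact Real.sqrt_nonneg _
          · exact Real.sqrt_nonneg _
  rw [Real.sqrt_mul hL'.le, Real.sqrt_mul hL'.le] at htot
  have e1 : Real.sqrt (2 * L)⁻¹ * Real.sqrt (2 * L)⁻¹ = (2 * L)⁻¹ := Real.mul_self_sqrt hL'.le
  have e2 : K * (Real.sqrt (2 * L)⁻¹ * Real.sqrt (∫ p, P p ^ 2) *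
      (Real.sqrt (2 * L)⁻¹ * Real.sqrt (∫ p, Q p ^ 2))) =
      (2 * L)⁻¹ * (K * (Real.sqrt (∫ p, P p ^ 2) * Real.sqrt (∫ p, Q p ^ 2))) := by
    calc K * (Real.sqrt (2 * L)⁻¹ * Real.sqrt (∫ p, P p ^ 2) *
      (Real.sqrt (2 * L)⁻¹ * Real.sqrt (∫ p, Q p ^ 2))) =
        (Real.sqrt (2 * L)⁻¹ * Real.sqrt (2 * L)⁻¹) *
          (K * (Real.sqrt (∫ p, P p ^ 2) * Real.sqrt (∫ p, Q p ^ 2))) := by ring
      _ = _ := by rw [e1]
  rw [e2] at htot
  exact le_of_mul_le_mul_left htot hL'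

/-- one coefficient: the weight `m ≤ C₀ h` -/
theorem FEP_coef (C₀ K₀ a b : ℝ) (m h w w' : ℝ → ℝ) (G : ℝ → ℝ) (hC : 0 ≤ C₀)
    (hG : ∀ t, G t = m t * (w t ^ 2 + w' t ^ 2)) (hm : ∀ t, m t ≤ C₀ * h t)
    (hh : Continuous h) (hw : Continuous w) (hw' : Continuous w') (hwc : HasCompactSupport w)
    (hwc' : HasCompactSupport w') (hGi : Integrable G)
    (h1 : ∫ t, h t * w t ^ 2 ≤ K₀ * a) (h2 : ∫ t, h t * w' t ^ 2 ≤ K₀ * b) :
    ∫ t, G t ≤ C₀ * K₀ * (a + b) := by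
  have i1 : ∀ u : ℝ → ℝ, Continuous u → HasCompactSupport u →
      Integrable (fun t => h t * u t ^ 2) := by
    intro u hu huc
    apply (hh.mul (hu.pow 2)).integrable_of_hasCompactSupport
    exact (huc.comp_left (g := fun x : ℝ => x ^ 2) (by simp)).mul_left
  calc ∫ t, G t ≤ ∫ t, (C₀ * (h t * w t ^ 2) + C₀ * (h t * w' t ^ 2)) := by
        apply integral_mono hGi
        · exact ((i1 w hw hwc).const_mul C₀).add ((i1 w' hw' hwc').const_mul C₀)
        · intro t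
          show G t ≤ C₀ * (h t * w t ^ 2) + C₀ * (h t * w' t ^ 2)
          rw [hG t]
          have h3 := hm t
          have h4 : 0 ≤ w t ^ 2 + w' t ^ 2 := by positivity
          nlinarith
    _ = C₀ * (∫ t, h t * w t ^ 2) + C₀ * ∫ t, h t * w' t ^ 2 := by
        rw [integral_add ((i1 w hw hwc).const_mul C₀) ((i1 w' hw' hwc').const_mul C₀),
          integral_const_mul, integral_const_mul]
    _ ≤ C₀ * (K₀ * a) + C₀ * (K₀ * b) :=
        add_le_add (mul_le_mul_of_nonneg_left h1 hC) (mul_le_mul_of_nonneg_left h2 hC)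
    _ = C₀ * K₀ * (a + b) := by ring

theorem FEP_log {R : ℝ} (hR : 1 ≤ R) : 2 * Real.log (1 + R) + 2 ≤ 4 * (1 + Real.log R) := by
  have h1 : Real.log (1 + R) ≤ Real.log (2 * R) := Real.log_le_log (by linarith) (by linarith)
  rw [Real.log_mul (by norm_num) (by linarith)] at h1
  have h2 := Real.log_two_lt_d9
  have h3 := Real.log_nonneg hR
  linarith

section supports

variable {U : ℝ × ℝ → ℝ}

theorem FEP_pT_cd (hU : ContDiff ℝ ∞ U) : ContDiff ℝ ∞ (pT U) :=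
  (hU.fderiv_right (m := ∞) (by simp)).clm_apply contDiff_const

theorem FEP_pX_cd (hU : ContDiff ℝ ∞ U) : ContDiff ℝ ∞ (pX U) :=
  (hU.fderiv_right (m := ∞) (by simp)).clm_apply contDiff_const

theorem FEP_pT_supp (p : ℝ × ℝ) (h : pT U p ≠ 0) : p ∈ tsupport U := by
  apply support_fderiv_subset ℝ
  rw [Function.mem_support]
  intro h0
  apply h
  unfold pT
  rw [h0]
  rfl

theorem FEP_pX_supp (p : ℝ × ℝ) (h : pX U p ≠ 0) : p ∈ tsupport U := by
  apply support_fderiv_subset ℝ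
  rw [Function.mem_support]
  intro h0
  apply h
  unfold pX
  rw [h0]
  rfl

theorem FEP_tsupp {V : ℝ × ℝ → ℝ} (h : ∀ p, V p ≠ 0 → p ∈ tsupport U) : tsupport V ⊆ tsupport U :=
  closure_minimal (fun p hp => h p hp) (isClosed_tsupport U)

theorem FEP_GG_supp (R : ℝ) (p : ℝ × ℝ) (h : GG R U p ≠ 0) : p ∈ tsupport U := by
  by_contra hp
  have h1 : pT (pT U) p = 0 := by
    by_contra h0
    exact hp (FEP_tsupp (fun p hp => FEP_pT_supp p hp) (FEP_pT_supp p h0))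
  have h2 : pX (pX U) p = 0 := by
    by_contra h0
    exact hp (FEP_tsupp (fun p hp => FEP_pX_supp p hp) (FEP_pX_supp p h0))
  have h3 : U p = 0 := image_eq_zero_of_notMem_tsupport hp
  apply h
  unfold GG
  rw [h1, h2, h3]
  ring

theorem FEP_hcs {V : ℝ × ℝ → ℝ} (hU : HasCompactSupport U) (h : ∀ p, V p ≠ 0 → p ∈ tsupport U) :
    HasCompactSupport V :=
  HasCompactSupport.intro hU (fun p hp => by
    by_contra h0
    exact hp (h p h0))

end supports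

theorem FEP (hMUL : MUL_stmt) (hODE : ODE_stmt) (hSWP : SWP_stmt) (hSHF : SHF_stmt)
    (hDFC : DFC_stmt) : FEP_stmt := by
  intro θ hθ
  obtain ⟨C₀, hC₀, hmul⟩ := hMUL θ hθ
  obtain ⟨B, hB0, hB⟩ : ∃ B : ℝ, 0 ≤ B ∧ ∀ v, θ v ≠ 0 → |v| ≤ B := by
    obtain ⟨B, hB⟩ := hθ.supp.isCompact.isBounded.subset_closedBall 0
    refine ⟨max B 0, le_max_right _ _, fun v hv => ?_⟩
    have h1 : v ∈ tsupport θ := subset_tsupport θ hv
    have h2 := hB h1
    rw [Metric.mem_closedBall, Real.dist_eq, sub_zero] at h2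
    exact le_trans h2 (le_max_left _ _)
  refine ⟨4 * C₀, by positivity, ?_⟩
  intro U R hR hU hUc
  obtain ⟨L, hL, hLs⟩ : ∃ L : ℝ, 0 < L ∧ ∀ x t, (x, t) ∈ tsupport U → |x| + B * Real.exp t < L := by
    obtain ⟨M, hM⟩ := hUc.isCompact.exists_bound_of_continuousOn
      (f := fun p : ℝ × ℝ => |p.1| + B * Real.exp p.2) (by fun_prop)
    refine ⟨max M 0 + 1, by positivity, fun x t hxt => ?_⟩
    have h1 := hM (x, t) hxt
    rw [Real.norm_eq_abs] at h1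
    have h2 := le_abs_self (|x| + B * Real.exp t)
    have h3 := le_max_left M 0
    simp only at h1
    linarith
  have hlt : ∀ (V : ℝ × ℝ → ℝ), (∀ p, V p ≠ 0 → p ∈ tsupport U) →
      (∀ x t, V (x, t) ≠ 0 → |x| + B * Real.exp t < L) ∧ (∀ x t, V (x, t) ≠ 0 → |x| < L) := by
    intro V hV
    refine ⟨fun x t h => hLs x t (hV _ h), fun x t h => ?_⟩
    have h1 := hLs x t (hV _ h)
    have h2 : 0 ≤ B * Real.exp t := by positivity
    linarith
  have sU : ∀ p, U p ≠ 0 → p ∈ tsupport U := fun p hp => subset_tsupport U hp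
  have sT : ∀ p, pT U p ≠ 0 → p ∈ tsupport U := fun p hp => FEP_pT_supp p hp
  have sG : ∀ p, GG R U p ≠ 0 → p ∈ tsupport U := fun p hp => FEP_GG_supp R p hp
  have cT : Continuous (pT U) := (FEP_pT_cd hU).continuous
  have cG : Continuous (GG R U) := by
    have h1 : Continuous (pT (pT U)) := (FEP_pT_cd (FEP_pT_cd hU)).continuous
    have h2 : Continuous (pX (pX U)) := (FEP_pX_cd (FEP_pX_cd hU)).continuous
    have h3 : Continuous U := hU.continuous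
    unfold GG
    fun_prop
  have hT : Continuous (pT U) ∧ HasCompactSupport (pT U) ∧ (∀ x t, pT U (x, t) ≠ 0 → |x| < L) :=
    ⟨cT, FEP_hcs hUc sT, (hlt _ sT).2⟩
  have hG : Continuous (GG R U) ∧ HasCompactSupport (GG R U) ∧
      (∀ x t, GG R U (x, t) ≠ 0 → |x| < L) :=
    ⟨cG, FEP_hcs hUc sG, (hlt _ sG).2⟩
  have hR0 : 0 < R := by linarith
  have hlog := Real.log_nonneg hR
  -- the ODE for the coefficients
  have hode : ∀ n : ℤ,
      ((∫ t, (Real.pi * n / L * Real.exp t) ^ 2 / (1 + (Real.pi * n / L * Real.exp t) ^ 2) *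
          fcC L U n t ^ 2) ≤ (2 * Real.log (1 + R) + 2) / R *
          (Real.sqrt (∫ t, fcC L (pT U) n t ^ 2) * Real.sqrt (∫ t, fcC L (GG R U) n t ^ 2)) ∧
        (∫ t, (Real.pi * n / L * Real.exp t) ^ 2 / (1 + (Real.pi * n / L * Real.exp t) ^ 2) ^ 2 *
          fcC L (pT U) n t ^ 2) ≤ 2 *
          (Real.sqrt (∫ t, fcC L (pT U) n t ^ 2) * Real.sqrt (∫ t, fcC L (GG R U) n t ^ 2))) ∧
      ((∫ t, (Real.pi * n / L * Real.exp t) ^ 2 / (1 + (Real.pi * n / L * Real.exp t) ^ 2) *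
          fcS L U n t ^ 2) ≤ (2 * Real.log (1 + R) + 2) / R *
          (Real.sqrt (∫ t, fcS L (pT U) n t ^ 2) * Real.sqrt (∫ t, fcS L (GG R U) n t ^ 2)) ∧
        (∫ t, (Real.pi * n / L * Real.exp t) ^ 2 / (1 + (Real.pi * n / L * Real.exp t) ^ 2) ^ 2 *
          fcS L (pT U) n t ^ 2) ≤ 2 *
          (Real.sqrt (∫ t, fcS L (pT U) n t ^ 2) * Real.sqrt (∫ t, fcS L (GG R U) n t ^ 2))) := by
    intro n
    obtain ⟨⟨c1, c2, c3, c4⟩, ⟨d1, d2, d3, d4⟩⟩ := hDFC L R U n hL hU hUc (hlt U sU).2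
    have o1 := hODE (fcC L U n) (Real.pi * n / L) R c1 c2 hR
    have o2 := hODE (fcS L U n) (Real.pi * n / L) R d1 d2 hR
    simp only [c3, c4] at o1
    simp only [d3, d4] at o2
    have e1 : deriv (fcC L U n) = fcC L (pT U) n := funext c3
    have e2 : deriv (fcS L U n) = fcS L (pT U) n := funext d3
    refine ⟨⟨?_, ?_⟩, ⟨?_, ?_⟩⟩
    · exact o1.1
    · exact o1.2
    · exact o2.1
    · exact o2.2
  have hcont1 : ∀ n : ℤ, Continuous (fun t : ℝ => (Real.pi * n / L * Real.exp t) ^ 2 /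
      (1 + (Real.pi * n / L * Real.exp t) ^ 2)) := by
    intro n
    apply Continuous.div (by fun_prop) (by fun_prop)
    intro t
    positivity
  have hcont2 : ∀ n : ℤ, Continuous (fun t : ℝ => (Real.pi * n / L * Real.exp t) ^ 2 /
      (1 + (Real.pi * n / L * Real.exp t) ^ 2) ^ 2) := by
    intro n
    apply Continuous.div (by fun_prop) (by fun_prop)
    intro t
    positivity
  have hle12 : ∀ s : ℝ, s ^ 2 / (1 + s ^ 2) ^ 2 ≤ s ^ 2 / (1 + s ^ 2) := by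
    intro s
    apply div_le_div_of_nonneg_left (by positivity) (by positivity)
    nlinarith [sq_nonneg s]
  obtain ⟨wU, _⟩ := hSWP L U hL hU.continuous hUc (hlt U sU).2
  obtain ⟨wT, _⟩ := hSWP L (pT U) hL hT.1 hT.2.1 hT.2.2
  have hK1 : C₀ * ((2 * Real.log (1 + R) + 2) / R) ≤ 4 * C₀ * ((1 + Real.log R) / R) := by
    have h1 := FEP_log hR
    have h2 : (2 * Real.log (1 + R) + 2) / R ≤ 4 * (1 + Real.log R) / R :=
      div_le_div_of_nonneg_right h1 hR0.le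
    calc C₀ * ((2 * Real.log (1 + R) + 2) / R) ≤ C₀ * (4 * (1 + Real.log R) / R) :=
          mul_le_mul_of_nonneg_left h2 hC₀
      _ = 4 * C₀ * ((1 + Real.log R) / R) := by ring
  have hK1' : 0 ≤ C₀ * ((2 * Real.log (1 + R) + 2) / R) := by
    have : 0 ≤ Real.log (1 + R) := Real.log_nonneg (by linarith)
    positivity
  have hA0 : 0 ≤ Real.sqrt (∫ p, pT U p ^ 2) * Real.sqrt (∫ p, GG R U p ^ 2) := by positivity
  obtain ⟨a1, a2, a3, a4⟩ := hSHF θ L B U hθ hL hB0 hB hU.continuous hUc (hlt U sU).1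
  obtain ⟨b1, b2, b3, b4⟩ := hSHF θ L B (pT U) hθ hL hB0 hB hT.1 hT.2.1 (hlt _ sT).1
  have gint : ∀ (F : ℝ × ℝ → ℝ), Continuous F → HasCompactSupport F →
      (∀ x t, F (x, t) ≠ 0 → |x| < L) → ∀ n : ℤ,
      Integrable (fun t => fcC L F n t ^ 2 + fcS L F n t ^ 2) := by
    intro F f1 f2 f3 n
    obtain ⟨w, _⟩ := hSWP L F hL f1 f2 f3
    exact (FEP_int (w n).1 (w n).2.1).add (FEP_int (w n).2.2.1 (w n).2.2.2)
  refine ⟨fun h0 => ⟨?_, ?_⟩, fun h1 => ?_⟩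
  · refine le_trans (FEP_core hSWP L _ (hp θ U) (pT U) (GG R U) hL hK1' ⟨a1, a2, a3⟩ hT hG ?_)
      (mul_le_mul_of_nonneg_right hK1 hA0)
    intro n
    exact FEP_coef C₀ ((2 * Real.log (1 + R) + 2) / R) _ _
      (fun t => ‖fI θ (Real.pi * n / L * Real.exp t)‖ ^ 2)
      (fun t => (Real.pi * n / L * Real.exp t) ^ 2 / (1 + (Real.pi * n / L * Real.exp t) ^ 2))
      (fcC L U n) (fcS L U n) _ hC₀ (fun t => (a4 n t).1)
      (fun t => le_trans ((hmul _).1 h0) (mul_le_mul_of_nonneg_left (hle12 _) hC₀))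
      (hcont1 n) (wU n).1 (wU n).2.2.1 (wU n).2.1 (wU n).2.2.2 (gint _ a1 a2 a3 n)
      (hode n).1.1 (hode n).2.1
  · have h2 : (0 : ℝ) ≤ C₀ * 2 := by positivity
    refine le_trans (FEP_core hSWP L _ (hp θ (pT U)) (pT U) (GG R U) hL h2 ⟨b1, b2, b3⟩ hT hG ?_)
      (mul_le_mul_of_nonneg_right (by linarith) hA0)
    intro n
    exact FEP_coef C₀ 2 _ _
      (fun t => ‖fI θ (Real.pi * n / L * Real.exp t)‖ ^ 2)
      (fun t => (Real.pi * n / L * Real.exp t) ^ 2 / (1 + (Real.pi * n / L * Real.exp t) ^ 2) ^ 2)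
      (fcC L (pT U) n) (fcS L (pT U) n) _ hC₀ (fun t => (b4 n t).1)
      (fun t => (hmul _).1 h0)
      (hcont2 n) (wT n).1 (wT n).2.2.1 (wT n).2.1 (wT n).2.2.2 (gint _ b1 b2 b3 n)
      (hode n).1.2 (hode n).2.2
  · have c1 : Continuous (fun p => U p - hp θ U p) := hU.continuous.sub a1
    have c2 : HasCompactSupport (fun p => U p - hp θ U p) := hUc.sub a2
    have c3 : ∀ x t, U (x, t) - hp θ U (x, t) ≠ 0 → |x| < L := by
      intro x t h
      by_cases hu : U (x, t) = 0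
      · apply a3 x t
        intro h'
        apply h
        rw [hu, h', sub_zero]
      · exact (hlt U sU).2 x t hu
    refine le_trans (FEP_core hSWP L _ (fun p => U p - hp θ U p) (pT U) (GG R U) hL hK1'
      ⟨c1, c2, c3⟩ hT hG ?_) (mul_le_mul_of_nonneg_right hK1 hA0)
    intro n
    exact FEP_coef C₀ ((2 * Real.log (1 + R) + 2) / R) _ _
      (fun t => ‖1 - fI θ (Real.pi * n / L * Real.exp t)‖ ^ 2)
      (fun t => (Real.pi * n / L * Real.exp t) ^ 2 / (1 + (Real.pi * n / L * Real.exp t) ^ 2))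
      (fcC L U n) (fcS L U n) _ hC₀ (fun t => (a4 n t).2)
      (fun t => (hmul _).2 h1)
      (hcont1 n) (wU n).1 (wU n).2.2.1 (wU n).2.1 (wU n).2.2.2 (gint _ c1 c2 c3 n)
      (hode n).1.1 (hode n).2.1

end Pool.Agent.QX
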