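import Pool.Agent.helper4.QX.SpecM

set_option autoImplicit false

/-!
# Row qm:NUM (MP_07c750_an)
-/

namespace Pool.Agent.QX

theorem NUM_core (C' x q κ D : ℝ) (m : ℕ) (hC : 1 ≤ C') (hx : 56 ^ 12 * C' ≤ x) (hm1 : x ≤ m)
    (hm2 : (m : ℝ) ≤ x ^ 2) (hκ : 0 < κ) (hq0 : 0 ≤ q) (hq : q ≤ x) (hκ' : 1 / κ ≤ 2 * x)
    (hD0 : 0 ≤ D) (hD : D ≤ Real.exp x) :
    (D * x ^ 100) * (4 * (2 * ((12 * m + 2 : ℕ) : ℝ) / κ) ^ (12 * m + 2) *
      (C' * q ^ 12 * (m : ℝ) ^ 6) ^ m / (x ^ 100) ^ (2 * m)) ≤ Real.exp (-x) := by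
  have hx1 : (56 : ℝ) ^ 12 ≤ x := by nlinarith
  have hx112 : (112 : ℝ) ≤ x := le_trans (by norm_num) hx1
  have hx0 : 0 < x := by linarith
  have hx1' : 1 ≤ x := by linarith
  have hm0 : (1 : ℝ) ≤ m := by linarith
  have hm1N : 1 ≤ m := by exact_mod_cast hm0
  have e1 : 2 * ((12 * m + 2 : ℕ) : ℝ) / κ ≤ 56 * x ^ 3 := by
    push_cast
    have a1 : 2 * (12 * (m : ℝ) + 2) ≤ 28 * m := by linarith
    calc 2 * (12 * (m : ℝ) + 2) / κ = 2 * (12 * (m : ℝ) + 2) * (1 / κ) := by ring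
      _ ≤ 28 * m * (2 * x) := by
        apply mul_le_mul a1 hκ' (by positivity) (by positivity)
      _ ≤ 28 * x ^ 2 * (2 * x) := by
        apply mul_le_mul_of_nonneg_right _ (by positivity)
        linarith
      _ = 56 * x ^ 3 := by ring
  have e2 : (2 * ((12 * m + 2 : ℕ) : ℝ) / κ) ^ (12 * m + 2) ≤ (56 * x ^ 3) ^ (12 * m + 2) :=
    pow_le_pow_left₀ (by positivity) e1 _
  have e3 : C' * q ^ 12 * (m : ℝ) ^ 6 ≤ C' * x ^ 24 := by
    have a1 : q ^ 12 ≤ x ^ 12 := pow_le_pow_left₀ hq0 hq _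
    have a2 : (m : ℝ) ^ 6 ≤ (x ^ 2) ^ 6 := pow_le_pow_left₀ (by positivity) hm2 _
    calc C' * q ^ 12 * (m : ℝ) ^ 6 ≤ C' * x ^ 12 * (x ^ 2) ^ 6 := by
          apply mul_le_mul _ a2 (by positivity) (by positivity)
          exact mul_le_mul_of_nonneg_left a1 (by linarith)
      _ = C' * x ^ 24 := by ring
  have e4 : (C' * q ^ 12 * (m : ℝ) ^ 6) ^ m ≤ (C' * x ^ 24) ^ m :=
    pow_le_pow_left₀ (by positivity) e3 _
  have e5 : (56 * x ^ 3) ^ (12 * m + 2) * (C' * x ^ 24) ^ m ≤ 3136 * x ^ 6 * (x ^ 61) ^ m := by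
    have a1 : (56 * x ^ 3) ^ (12 * m + 2) * (C' * x ^ 24) ^ m =
        3136 * x ^ 6 * ((56 ^ 12 * C') * x ^ 60) ^ m := by
      rw [pow_add, pow_mul]
      have : ((56 * x ^ 3) ^ 12) ^ m * (56 * x ^ 3) ^ 2 * (C' * x ^ 24) ^ m =
          (56 * x ^ 3) ^ 2 * ((56 * x ^ 3) ^ 12 * (C' * x ^ 24)) ^ m := by
        rw [mul_pow ((56 * x ^ 3) ^ 12)]; ring
      rw [this]
      congr 1
      · ring
      · congr 1; ring
    rw [a1]
    apply mul_le_mul_of_nonneg_left _ (by positivity)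
    apply pow_le_pow_left₀ (by positivity)
    calc (56 ^ 12 * C') * x ^ 60 ≤ x * x ^ 60 := mul_le_mul_of_nonneg_right hx (by positivity)
      _ = x ^ 61 := by ring
  have e6 : 4 * (2 * ((12 * m + 2 : ℕ) : ℝ) / κ) ^ (12 * m + 2) *
      (C' * q ^ 12 * (m : ℝ) ^ 6) ^ m ≤ x ^ 8 * (x ^ 61) ^ m := by
    calc 4 * (2 * ((12 * m + 2 : ℕ) : ℝ) / κ) ^ (12 * m + 2) *
          (C' * q ^ 12 * (m : ℝ) ^ 6) ^ m
        ≤ 4 * (56 * x ^ 3) ^ (12 * m + 2) * (C' * x ^ 24) ^ m := by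
          apply mul_le_mul _ e4 (by positivity) (by positivity)
          linarith
      _ = 4 * ((56 * x ^ 3) ^ (12 * m + 2) * (C' * x ^ 24) ^ m) := by ring
      _ ≤ 4 * (3136 * x ^ 6 * (x ^ 61) ^ m) := by linarith
      _ = 12544 * (x ^ 6 * (x ^ 61) ^ m) := by ring
      _ ≤ x ^ 2 * (x ^ 6 * (x ^ 61) ^ m) := by
          apply mul_le_mul_of_nonneg_right _ (by positivity)
          nlinarith
      _ = x ^ 8 * (x ^ 61) ^ m := by ring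
  have e7 : 4 * (2 * ((12 * m + 2 : ℕ) : ℝ) / κ) ^ (12 * m + 2) *
      (C' * q ^ 12 * (m : ℝ) ^ 6) ^ m / (x ^ 100) ^ (2 * m) ≤
      x ^ 8 * (x ^ 61) ^ m / (x ^ 200) ^ m := by
    have : (x ^ 100) ^ (2 * m) = (x ^ 200) ^ m := by rw [← pow_mul, ← pow_mul]; ring_nf
    rw [this]
    exact div_le_div_of_nonneg_right e6 (by positivity)
  have e8 : x ^ 100 * (x ^ 8 * (x ^ 61) ^ m / (x ^ 200) ^ m) ≤ (Real.exp (2 * x))⁻¹ := by
    have a1 : x ^ 100 * (x ^ 8 * (x ^ 61) ^ m / (x ^ 200) ^ m) =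
        x ^ 108 * (x ^ 61) ^ m / (x ^ 200) ^ m := by ring
    have a2 : x ^ 108 ≤ (x ^ 108) ^ m := by
      apply le_self_pow₀ (one_le_pow₀ hx1')
      omega
    have a3 : (x ^ 200) ^ m = (x ^ 108) ^ m * (x ^ 61) ^ m * (x ^ 31) ^ m := by
      rw [← mul_pow, ← mul_pow]; ring_nf
    have a4 : Real.exp (2 * x) ≤ (x ^ 31) ^ m := by
      have b1 : Real.exp 2 ≤ x := by
        have c1 : Real.exp 2 = Real.exp 1 * Real.exp 1 := by
          rw [← Real.exp_add]; norm_num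
        have c2 := Real.exp_one_lt_d9
        have c3 := Real.exp_pos 1
        rw [c1]; nlinarith
      calc Real.exp (2 * x) ≤ Real.exp (m * 2) := Real.exp_le_exp.mpr (by linarith)
        _ = Real.exp 2 ^ m := by rw [Real.exp_nat_mul]
        _ ≤ x ^ m := pow_le_pow_left₀ (Real.exp_pos _).le b1 _
        _ ≤ (x ^ 31) ^ m := pow_le_pow_left₀ hx0.le (le_self_pow₀ hx1' (by norm_num)) _
    rw [a1, a3]
    rw [div_le_iff₀ (by positivity), ← div_eq_inv_mul, le_div_iff₀ (Real.exp_pos _)]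
    calc x ^ 108 * (x ^ 61) ^ m * Real.exp (2 * x)
        ≤ (x ^ 108) ^ m * (x ^ 61) ^ m * (x ^ 31) ^ m := by
          apply mul_le_mul _ a4 (Real.exp_pos _).le (by positivity)
          exact mul_le_mul_of_nonneg_right a2 (by positivity)
      _ = (x ^ 108) ^ m * (x ^ 61) ^ m * (x ^ 31) ^ m := rfl
  calc (D * x ^ 100) * (4 * (2 * ((12 * m + 2 : ℕ) : ℝ) / κ) ^ (12 * m + 2) *
      (C' * q ^ 12 * (m : ℝ) ^ 6) ^ m / (x ^ 100) ^ (2 * m))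
      ≤ (Real.exp x * x ^ 100) * (x ^ 8 * (x ^ 61) ^ m / (x ^ 200) ^ m) := by
        apply mul_le_mul _ e7 (by positivity) (by positivity)
        exact mul_le_mul_of_nonneg_right hD (by positivity)
    _ = Real.exp x * (x ^ 100 * (x ^ 8 * (x ^ 61) ^ m / (x ^ 200) ^ m)) := by ring
    _ ≤ Real.exp x * (Real.exp (2 * x))⁻¹ := mul_le_mul_of_nonneg_left e8 (Real.exp_pos _).le
    _ = Real.exp (-x) := by
        rw [← Real.exp_neg, ← Real.exp_add]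
        congr 1; ring

theorem NUM : NUM_stmt := by
  intro C' hC
  refine ⟨max 1 ⌈(56 ^ 12 * C') ^ 100⌉₊, le_max_left _ _, ?_⟩
  intro N hN
  have hN1 : 1 ≤ N := le_trans (le_max_left _ _) hN
  have hN2 : (56 ^ 12 * C') ^ 100 ≤ (N : ℝ) := by
    have h1 := Nat.le_ceil ((56 ^ 12 * C') ^ 100)
    have h2 : ((⌈(56 ^ 12 * C') ^ 100⌉₊ : ℕ) : ℝ) ≤ (N : ℝ) := by
      exact_mod_cast le_trans (le_max_right _ _) hN
    linarith
  have hNr : (0 : ℝ) ≤ N := Nat.cast_nonneg _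
  have hx : 56 ^ 12 * C' ≤ (N : ℝ) ^ (1 / 100 : ℝ) := by
    have h3 : ((56 ^ 12 * C') ^ 100) ^ (1 / 100 : ℝ) ≤ (N : ℝ) ^ (1 / 100 : ℝ) :=
      Real.rpow_le_rpow (by positivity) hN2 (by norm_num)
    have h4 : ((56 ^ 12 * C') ^ 100) ^ (1 / 100 : ℝ) = 56 ^ 12 * C' := by
      rw [← Real.rpow_natCast, ← Real.rpow_mul (by positivity)]
      norm_num
    rw [h4] at h3
    exact h3
  have hxN : ((N : ℝ) ^ (1 / 100 : ℝ)) ^ 100 = N := by
    rw [← Real.rpow_natCast, ← Real.rpow_mul hNr]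
    norm_num
  generalize hxdef : (N : ℝ) ^ (1 / 100 : ℝ) = x at *
  have hx1 : (56 : ℝ) ^ 12 ≤ x := by nlinarith
  have hx112 : (112 : ℝ) ≤ x := le_trans (by norm_num) hx1
  have hfl := Nat.lt_floor_add_one (x ^ 2)
  have hfl2 := Nat.floor_le (by positivity : (0 : ℝ) ≤ x ^ 2)
  have hm1 : x ≤ (⌊x ^ 2⌋₊ : ℝ) := by nlinarith
  refine ⟨⌊x ^ 2⌋₊, ?_, ?_⟩
  · have : (1 : ℝ) ≤ (⌊x ^ 2⌋₊ : ℝ) := by linarith
    exact_mod_cast this
  · intro D q κ hκ hq hκ' hD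
    have := NUM_core C' x q κ D ⌊x ^ 2⌋₊ hC hx hm1 hfl2 hκ (Nat.cast_nonneg _) hq hκ'
      (Nat.cast_nonneg _) hD
    rw [hxN] at this
    exact this

end Pool.Agent.QX
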