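import Pool.Agent.helper4.QX.SpecF

/-! # QX: row EAB -/

set_option autoImplicit false

open scoped MatrixGroups ContDiff Topology UpperHalfPlane
open UpperHalfPlane MeasureTheory ProbabilityTheory Filter Set Polynomial
open Pool.Agent.QU Pool.Agent.RP

namespace Pool.Agent.QX

/-- products of invariant functions are integrable over `F` -/
theorem EAB_int {Γ : Subgroup SL(2, ℝ)} {F : Set ℍ} (hΓ : SurfaceGroup Γ) (hF : NiceDom Γ F)
    {u v : ℍ → ℝ} (hu : Inv Γ u) (hv : Inv Γ v) :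
    IntegrableOn (fun z => u z * v z) F (volume : Measure ℍ) := by
  obtain ⟨a, ha⟩ := (Pool.Agent.QU.A_BDD Γ F u hΓ hF hu).1
  obtain ⟨b, hb⟩ := (Pool.Agent.QU.A_BDD Γ F v hΓ hF hv).1
  have hV := (Pool.Agent.QU.A_DOB Γ F hΓ hF).2.2.2.1
  refine Measure.integrableOn_of_bounded (M := a * b) hV.ne (hu.1.mul hv.1).aestronglyMeasurable ?_
  refine Filter.Eventually.of_forall fun z => ?_
  rw [Real.norm_eq_abs, abs_mul]
  exact mul_le_mul (ha z) (hb z) (abs_nonneg _) ((abs_nonneg _).trans (ha z))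

/-- Cauchy-Schwarz -/
theorem EAB_cs {Γ : Subgroup SL(2, ℝ)} {F : Set ℍ} (hΓ : SurfaceGroup Γ) (hF : NiceDom Γ F)
    {u f : ℍ → ℝ} (hu : Inv Γ u) (hf : Inv Γ f) (h1 : ∀ z, |f z| ≤ 1) :
    (∫ z in F, u z * f z) ^ 2 ≤ (volume F).toReal * ∫ z in F, u z * u z := by
  have hD := Pool.Agent.QU.A_DOB Γ F hΓ hF
  have hV0 : 0 < (volume F).toReal := ENNReal.toReal_pos hD.2.2.1.ne' hD.2.2.2.1.ne
  have i1 := EAB_int hΓ hF hu hu
  have i2 := EAB_int hΓ hF hu hf
  have i3 := EAB_int hΓ hF hf hf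
  have h3 : (∫ z in F, f z * f z) ≤ (volume F).toReal := by
    have h4 : (∫ z in F, f z * f z) ≤ ∫ z in F, (1 : ℝ) := by
      refine setIntegral_mono i3 (integrableOn_const hD.2.2.2.1.ne) fun z => ?_
      have := abs_le.1 (h1 z)
      show f z * f z ≤ 1
      nlinarith [this.1, this.2]
    rw [setIntegral_const, smul_eq_mul, mul_one] at h4
    exact h4
  have h2 : ∀ V J : ℝ, (∫ z in F, (V * u z - J * f z) ^ 2) =
      V ^ 2 * (∫ z in F, u z * u z) - 2 * V * J * (∫ z in F, u z * f z) +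
        J ^ 2 * ∫ z in F, f z * f z := by
    intro V J
    have j : IntegrableOn (fun z => V ^ 2 * (u z * u z) - 2 * V * J * (u z * f z)) F
        (volume : Measure ℍ) := (i1.const_mul _).sub (i2.const_mul _)
    rw [← integral_const_mul, ← integral_const_mul, ← integral_const_mul,
      ← integral_sub (i1.const_mul _) (i2.const_mul _), ← integral_add j (i3.const_mul _)]
    refine integral_congr_ae (Filter.Eventually.of_forall fun z => ?_)
    show (V * u z - J * f z) ^ 2 = V ^ 2 * (u z * u z) - 2 * V * J * (u z * f z) + J ^ 2 * (f z * f z)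
    ring
  have h0 : 0 ≤ ∫ z in F, ((volume F).toReal * u z - (∫ z in F, u z * f z) * f z) ^ 2 :=
    integral_nonneg fun z => sq_nonneg _
  rw [h2] at h0
  generalize (volume F).toReal = V at *
  generalize (∫ z in F, u z * f z) = J at *
  generalize (∫ z in F, u z * u z) = I at *
  generalize (∫ z in F, f z * f z) = K at *
  have h5 : J ^ 2 * K ≤ J ^ 2 * V := mul_le_mul_of_nonneg_left h3 (sq_nonneg J)
  have h6 : 0 ≤ V * (V * I - J ^ 2) := by nlinarith
  have h7 := nonneg_of_mul_nonneg_right h6 hV0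
  linarith

theorem EAB_core {Γ : Subgroup SL(2, ℝ)} {F : Set ℍ} (hΓ : SurfaceGroup Γ) (hF : NiceDom Γ F)
    (k : ℝ → ℝ) (hk : RK k) (R N E S : ℝ) (δ κ' : (ℍ → ℝ) → ℝ) (hR : 0 ≤ R) (hN : 0 ≤ N)
    (hS0 : 0 ≤ S) (hδ : BFun Γ δ) (hκ : BFun Γ κ')
    (hS : ∀ g : ℍ → ℝ, Inv Γ g → ∀ z, |conv k g z| ≤ S * Real.sqrt (∫ w in F, g w ^ 2))
    (hbd : ∀ (f : ℍ → ℝ) (m : ℝ), Inv Γ f → (∀ z, |f z| ≤ m) → |δ f| ≤ N * m ∧ |κ' f| ≤ N * m)
    (hyp : ∀ (f : ℍ → ℝ) (m : ℝ), Inv Γ f → (∀ z, |f z| ≤ m) →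
      |δ (lap (conv k (conv k f))) -
        (4 * R * κ' (conv k (conv k f)) + 4 * R * δ (conv k (conv k f)))| ≤ E * m ∧
      |κ' (lap (conv k (conv k f))) -
        (4 * R * κ' (conv k (conv k f)) - δ (conv k (conv k f)))| ≤ E * m)
    (f : ℍ → ℝ) (hf : Inv Γ f) (hf1 : ∀ z, |f z| ≤ 1) :
    δ (conv k (conv k f)) ^ 2 + 4 * R * κ' (conv k (conv k f)) ^ 2 ≤
      (volume F).toReal * (2 * S ^ 2 * N * E) := by
  have h4 := Pool.Agent.QU.A_CVS
  have h6 := Pool.Agent.QU.A_COM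
  have h12 := Pool.Agent.QU.A_SYC
  have h13 := Pool.Agent.QU.A_FUB
  obtain ⟨-, -, -, l4, -⟩ := Pool.Agent.QU.A_LAK
  obtain ⟨-, -, -, -, -, -, -, b8⟩ := Pool.Agent.QU.A_CVB ℝ
  have hL := l4 k hk
  have hB : ∀ g, Inv Γ g → Inv Γ (conv k g) := fun g hg => b8 Γ k g hk hg
  have hA : ∀ g, Inv Γ g → Inv Γ (conv (LL k) g) := fun g hg => b8 Γ (LL k) g hL hg
  have hlap : ∀ g, Inv Γ g → lap (conv k g) = conv (LL k) g := by
    intro g hg
    funext z
    exact (h4 ℝ k g hk hg.1).2.2.2 z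
  have hAB : ∀ g, Inv Γ g → conv k (conv (LL k) g) = conv (LL k) (conv k g) := by
    intro g hg
    funext z
    have e := h6 ℝ k (conv k g) hk (h4 ℝ k g hk hg.1).1 z
    rw [hlap g hg] at e
    exact e
  obtain ⟨p, hp, hpf⟩ := h13 Γ F k δ hΓ hF hk hδ
  obtain ⟨q, hq, hqf⟩ := h13 Γ F k κ' hΓ hF hk hκ
  -- values on `BB f`
  have vδ : ∀ g, Inv Γ g → δ (conv k (conv k g)) = ∫ z in F, conv k p z * g z := by
    intro g hg
    rw [hpf _ (hB g hg), h12 Γ F k p g hΓ hF hk hp hg]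
  have vκ : ∀ g, Inv Γ g → κ' (conv k (conv k g)) = ∫ z in F, conv k q z * g z := by
    intro g hg
    rw [hqf _ (hB g hg), h12 Γ F k q g hΓ hF hk hq hg]
  -- the relations
  have hrel : ∀ (g : ℍ → ℝ) (m : ℝ), Inv Γ g → (∀ z, |g z| ≤ m) →
      |(∫ z in F, conv (LL k) p z * g z) -
        (4 * R * (∫ z in F, conv k q z * g z) + 4 * R * ∫ z in F, conv k p z * g z)| ≤ E * m := by
    intro g m hg hm
    have e1 := (hyp g m hg hm).1
    rw [hlap _ (hB g hg), ← hAB g hg, hpf _ (hA g hg), vδ g hg, vκ g hg] at e1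
    rw [h12 Γ F (LL k) p g hΓ hF hL hp hg]
    exact e1
  have hrel2 : ∀ (g : ℍ → ℝ) (m : ℝ), Inv Γ g → (∀ z, |g z| ≤ m) →
      |(∫ z in F, conv (LL k) q z * g z) -
        (4 * R * (∫ z in F, conv k q z * g z) - ∫ z in F, conv k p z * g z)| ≤ E * m := by
    intro g m hg hm
    have e1 := (hyp g m hg hm).2
    rw [hlap _ (hB g hg), ← hAB g hg, hqf _ (hA g hg), vδ g hg, vκ g hg] at e1
    rw [h12 Γ F (LL k) q g hΓ hF hL hq hg]
    exact e1
  -- `∫ (Ap)(Bq) = ∫ (Bp)(Aq)`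
  have hsw : (∫ z in F, conv (LL k) p z * conv k q z) = ∫ z in F, conv (LL k) q z * conv k p z := by
    calc (∫ z in F, conv (LL k) p z * conv k q z) = ∫ z in F, p z * conv (LL k) (conv k q) z :=
          h12 Γ F (LL k) p (conv k q) hΓ hF hL hp (hB q hq)
      _ = ∫ z in F, p z * conv k (conv (LL k) q) z := by rw [hAB q hq]
      _ = ∫ z in F, conv k p z * conv (LL k) q z :=
          (h12 Γ F k p (conv (LL k) q) hΓ hF hk hp (hA q hq)).symm
      _ = ∫ z in F, conv (LL k) q z * conv k p z := by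
          refine integral_congr_ae (Filter.Eventually.of_forall fun z => ?_)
          exact mul_comm _ _
  -- sup bounds
  have hsup : ∀ (α : (ℍ → ℝ) → ℝ) (r : ℍ → ℝ), Inv Γ r →
      (∀ (f : ℍ → ℝ) (m : ℝ), Inv Γ f → (∀ z, |f z| ≤ m) → |α f| ≤ N * m) →
      (∀ g : ℍ → ℝ, Inv Γ g → α (conv k g) = ∫ z in F, r z * g z) →
      ∀ z, |conv k r z| ≤ S ^ 2 * N := by
    intro α r hr hα hr2 z
    have e1 := hS r hr
    have e2 := hα (conv k r) _ (hB r hr) e1
    rw [hr2 r hr] at e2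
    have e3 : (∫ z in F, r z * r z) = ∫ w in F, r w ^ 2 := by
      refine integral_congr_ae (Filter.Eventually.of_forall fun z => ?_)
      show r z * r z = r z ^ 2
      ring
    have e4 : 0 ≤ ∫ w in F, r w ^ 2 := integral_nonneg fun z => sq_nonneg _
    rw [e3, abs_of_nonneg e4] at e2
    have e5 := Real.sq_sqrt e4
    have e6 := Real.sqrt_nonneg (∫ w in F, r w ^ 2)
    have e7 := e1 z
    generalize Real.sqrt (∫ w in F, r w ^ 2) = x at *
    have e8 : x ≤ N * S := by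
      rcases eq_or_lt_of_le e6 with h | h
      · rw [← h]
        positivity
      · have : x * x ≤ (N * S) * x := by nlinarith
        exact le_of_mul_le_mul_right this h
    calc |conv k r z| ≤ S * x := e7
      _ ≤ S * (N * S) := mul_le_mul_of_nonneg_left e8 hS0
      _ = S ^ 2 * N := by ring
  have mp := hsup δ p hp (fun f m hf hm => (hbd f m hf hm).1) hpf
  have mq := hsup κ' q hq (fun f m hf hm => (hbd f m hf hm).2) hqf
  have e1 := abs_le.1 (hrel (conv k q) _ (hB q hq) mq)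
  have e2 := abs_le.1 (hrel2 (conv k p) _ (hB p hp) mp)
  have e3 : (∫ z in F, conv k p z * conv k q z) = ∫ z in F, conv k q z * conv k p z := by
    refine integral_congr_ae (Filter.Eventually.of_forall fun z => ?_)
    exact mul_comm _ _
  rw [e3, hsw] at e1
  have cs1 := EAB_cs hΓ hF (hB p hp) hf hf1
  have cs2 := EAB_cs hΓ hF (hB q hq) hf hf1
  rw [← vδ f hf] at cs1
  rw [← vκ f hf] at cs2
  have hV0 : 0 ≤ (volume F).toReal := ENNReal.toReal_nonneg
  generalize (volume F).toReal = V at *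
  generalize (∫ z in F, conv k p z * conv k p z) = P at *
  generalize (∫ z in F, conv k q z * conv k q z) = Q at *
  generalize (∫ z in F, conv (LL k) q z * conv k p z) = T at *
  generalize (∫ z in F, conv k q z * conv k p z) = U at *
  have k1 : P + 4 * R * Q ≤ 2 * S ^ 2 * N * E := by nlinarith [e1.1, e1.2, e2.1, e2.2]
  calc δ (conv k (conv k f)) ^ 2 + 4 * R * κ' (conv k (conv k f)) ^ 2 ≤ V * P + 4 * R * (V * Q) := by
        refine add_le_add cs1 (mul_le_mul_of_nonneg_left cs2 (by positivity))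
    _ = V * (P + 4 * R * Q) := by ring
    _ ≤ V * (2 * S ^ 2 * N * E) := mul_le_mul_of_nonneg_left k1 hV0

theorem EAB (hESB : ESB_stmt) : EAB_stmt := by
  intro κ₁ C hBF Γ F hΓ hF
  obtain ⟨A₁, hA₁, hS⟩ := hESB Γ F hΓ hF
  obtain ⟨C', hC'⟩ : ∃ C' : ℝ, ∀ t ∈ Icc (0 : ℝ) 1, |κ₁ t| ≤ C' := by
    obtain ⟨C', h⟩ := (isCompact_Icc (a := (0 : ℝ)) (b := 1)).exists_bound_of_continuousOn
      hBF.smooth.continuous.continuousOn
    exact ⟨C', fun t ht => h t ht⟩
  have hC0 : 0 ≤ C' := (abs_nonneg _).trans (hC' 0 ⟨le_rfl, zero_le_one⟩)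
  have hC2 : ∀ t, 0 ≤ t → |κ₁ t| ≤ C' := by
    intro t ht
    rcases le_or_gt t 1 with h | h
    · exact hC' t ⟨ht, h⟩
    · rw [hBF.supp t h.le, abs_zero]
      exact hC0
  have hV0 : 0 ≤ (volume F).toReal := ENNReal.toReal_nonneg
  have hT : 0 ≤ 2 * (volume F).toReal * (A₁ * C') ^ 2 := by positivity
  refine ⟨2 * (volume F).toReal * (A₁ * C') ^ 2 + 1, by linarith, ?_⟩
  intro η R N E δ κ' hη hη1 hR hN hE hδ hκ hbd hrel f hf hf1
  have hk : RK (fm κ₁ η) := hBF.fam.rk η hη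
  have hM : ∀ t, 0 ≤ t → |fm κ₁ η t| ≤ C' / η := by
    intro t ht
    unfold fm
    rw [abs_div, abs_of_pos hη]
    exact div_le_div_of_nonneg_right (hC2 _ (by positivity)) hη.le
  have hsupp : ∀ t, 1 ≤ t → fm κ₁ η t = 0 := fun t ht => hBF.fam.supp η hη t (hη1.trans ht)
  have hS2 : ∀ g : ℍ → ℝ, Inv Γ g → ∀ z,
      |conv (fm κ₁ η) g z| ≤ A₁ * (C' / η) * Real.sqrt (∫ w in F, g w ^ 2) :=
    fun g hg z => hS (fm κ₁ η) g (C' / η) hk hsupp hM hg z
  have hcore := EAB_core hΓ hF (fm κ₁ η) hk R N E (A₁ * (C' / η)) δ κ' hR hN (by positivity)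
    hδ hκ hS2 hbd hrel f hf hf1
  refine le_trans hcore ?_
  have e1 : (volume F).toReal * (2 * (A₁ * (C' / η)) ^ 2 * N * E) =
      2 * (volume F).toReal * (A₁ * C') ^ 2 / η ^ 2 * (E * N) := by
    field_simp
  rw [e1]
  refine mul_le_mul_of_nonneg_right ?_ (mul_nonneg hE hN)
  have e2 : η ^ 4 ≤ η ^ 2 := pow_le_pow_of_le_one hη.le hη1 (by norm_num)
  exact div_le_div₀ (by linarith) (by linarith) (by positivity) e2

end Pool.Agent.QX
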